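import Pool.Agent.Lib.MP_f91ac8_co.Defs

set_option autoImplicit false

namespace Pool.Agent.Lib.MP_f91ac8_co

/-- append `j` copies of the binary block `001` to `n` -/
def app (n : ℕ) : ℕ → ℕ
  | 0 => n
  | j + 1 => 8 * app n j + 1

theorem app_add (n j l : ℕ) : app (app n j) l = app n (j + l) := by
  induction l with
  | zero => rfl
  | succ l ih => rw [← Nat.add_assoc]; simp only [app, ih]

theorem kernel_closed (f : ℕ → ℤ) :
    ∀ g ∈ Submodule.span ℤ (dKernel 2 f),
      (LinearMap.funLeft ℤ ℤ (fun n : ℕ => 8 * n + 1)) g ∈ Submodule.span ℤ (dKernel 2 f) := by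
  intro g hg
  have h := (Submodule.map_span_le (LinearMap.funLeft ℤ ℤ (fun n : ℕ => 8 * n + 1)) (dKernel 2 f)
    (Submodule.span ℤ (dKernel 2 f))).2 ?_
  · exact h (Submodule.mem_map_of_mem hg)
  · rintro _ ⟨e, r, hr, rfl⟩
    apply Submodule.subset_span
    refine ⟨e + 3, 2 ^ e + r, ?_, ?_⟩
    · rw [pow_add]; omega
    · funext n
      simp only [LinearMap.funLeft_apply]
      congr 1
      rw [pow_add]; ring

theorem funLeft_pow (l : ℕ) : ∀ (g : ℕ → ℤ) (n : ℕ),
    ((LinearMap.funLeft ℤ ℤ (fun n : ℕ => 8 * n + 1)) ^ l) g n = g (app n l) := by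
  induction l with
  | zero => intro g n; rfl
  | succ l ih =>
    intro g n
    rw [pow_succ, Module.End.mul_apply, ih]
    rfl

/-- the linear recurrence satisfied along `j ↦ app n j` -/
theorem exists_recurrence (f : ℕ → ℤ) (hreg : IsRegularSeq 2 f) :
    ∃ (R : ℕ) (c : ℕ → ℤ), ∀ n, f (app n R) = ∑ l ∈ Finset.range R, c l * f (app n l) := by
  let S := Submodule.span ℤ (dKernel 2 f)
  have hfg : S.FG := hreg
  have : Module.Finite ℤ S := Module.Finite.iff_fg.2 hfg
  let T : Module.End ℤ S :=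
    (LinearMap.funLeft ℤ ℤ (fun n : ℕ => 8 * n + 1)).restrict (kernel_closed f)
  obtain ⟨p, hp, hp0⟩ := LinearMap.exists_monic_and_aeval_eq_zero ℤ T
  have hf : f ∈ S := Submodule.subset_span ⟨0, 0, by simp, by funext n; simp⟩
  have hpow : ∀ (l n : ℕ), ((T ^ l) ⟨f, hf⟩ : ℕ → ℤ) n = f (app n l) := by
    intro l n
    rw [← funLeft_pow l f n]
    rw [Module.End.pow_restrict]
    rfl
  refine ⟨p.natDegree, fun l => - p.coeff l, fun n => ?_⟩
  have h1 : ((Polynomial.aeval T p) ⟨f, hf⟩ : ℕ → ℤ) n = 0 := by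
    rw [hp0]; rfl
  rw [Polynomial.aeval_eq_sum_range, LinearMap.sum_apply] at h1
  have h2 : (∑ i ∈ Finset.range (p.natDegree + 1), p.coeff i * f (app n i)) = 0 := by
    rw [← h1]
    rw [AddSubmonoidClass.coe_finsetSum, Finset.sum_apply]
    refine Finset.sum_congr rfl fun i _ => ?_
    rw [LinearMap.smul_apply, Submodule.coe_smul, Pi.smul_apply, hpow, smul_eq_mul]
  rw [Finset.sum_range_succ, Polynomial.coeff_natDegree, hp.leadingCoeff, one_mul] at h2
  have h3 : f (app n p.natDegree) = - ∑ i ∈ Finset.range p.natDegree, p.coeff i * f (app n i) := by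
    linarith
  rw [h3, ← Finset.sum_neg_distrib]
  exact Finset.sum_congr rfl fun i _ => by ring

theorem uniform_bound (f : ℕ → ℤ) (hreg : IsRegularSeq 2 f) (M : ℤ)
    (hb : ∀ n, 0 ≤ f (8 * n + 1) - f n ∧ f (8 * n + 1) - f n ≤ M) (φ : ℕ → ℤ)
    (hlow : ∀ n, ∃ C, ∀ j, φ j - C ≤ f (app n j)) :
    ∃ K, ∀ n j, φ j - K ≤ f (app n j) - f n := by
  obtain ⟨R, c, hrec⟩ := exists_recurrence f hreg
  let D : ℕ → ℕ → ℤ := fun n j => f (app n (j + 1)) - f (app n j)
  have hDrec : ∀ n j, D n (j + R) = ∑ l ∈ Finset.range R, c l * D n (j + l) := by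
    intro n j
    have h1 := hrec (app n j)
    have h2 := hrec (app n (j + 1))
    simp only [app_add] at h1 h2
    have h3 : D n (j + R) = f (app n (j + 1 + R)) - f (app n (j + R)) := by
      simp only [D]; congr 2; congr 1; omega
    rw [h3, h1, h2, ← Finset.sum_sub_distrib]
    refine Finset.sum_congr rfl fun l _ => ?_
    simp only [D]
    rw [show j + l + 1 = j + 1 + l by omega]
    ring
  have hagree : ∀ n m, (∀ i, i < R → D n i = D m i) → ∀ j, D n j = D m j := by
    intro n m h j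
    induction j using Nat.strong_induction_on with
    | _ j ih =>
      by_cases hj : j < R
      · exact h j hj
      · obtain ⟨k, rfl⟩ := Nat.exists_eq_add_of_le (not_lt.1 hj)
        rw [show R + k = k + R by omega, hDrec, hDrec]
        refine Finset.sum_congr rfl fun l hl => ?_
        rw [ih (k + l) (by have := Finset.mem_range.1 hl; omega)]
  have hsum : ∀ n j, f (app n j) - f n = ∑ l ∈ Finset.range j, D n l := by
    intro n j
    induction j with
    | zero => simp [app]
    | succ j ih => rw [Finset.sum_range_succ, ← ih]; simp only [D]; ring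
  let rs : ℕ → (Fin R → ℤ) := fun n i => D n i
  have hfin : (Set.range rs).Finite := by
    refine Set.Finite.subset (Set.Finite.pi (fun _ : Fin R => Set.finite_Icc (0 : ℤ) M)) ?_
    rintro _ ⟨n, rfl⟩ i _
    exact hb (app n i)
  have hK : ∀ v : Fin R → ℤ, ∃ K, ∀ n, rs n = v → ∀ j, φ j - K ≤ f (app n j) - f n := by
    intro v
    by_cases hv : ∃ n, rs n = v
    · obtain ⟨m, hm⟩ := hv
      obtain ⟨C, hC⟩ := hlow m
      refine ⟨C + f m, fun n hn j => ?_⟩
      have heq : ∀ j, D n j = D m j := by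
        apply hagree
        intro i hi
        have := congrFun (hn.trans hm.symm) ⟨i, hi⟩
        exact this
      rw [hsum n j, Finset.sum_congr rfl (fun l _ => heq l), ← hsum m j]
      have := hC j
      linarith
    · exact ⟨0, fun n hn => absurd ⟨n, hn⟩ hv⟩
  choose K hK using hK
  obtain ⟨B, hB⟩ := (hfin.image K).bddAbove
  refine ⟨B, fun n j => ?_⟩
  have h1 := hK (rs n) n rfl j
  have h2 : K (rs n) ≤ B := hB ⟨rs n, ⟨n, rfl⟩, rfl⟩
  linarith

end Pool.Agent.Lib.MP_f91ac8_co
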