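import Pool.Agent.Lib.MP_f91ac8_co.Potential
import Pool.Agent.Lib.MP_f91ac8_co.Regular

set_option autoImplicit false

namespace Pool.Agent.Lib.MP_f91ac8_co

/-- append `i` copies of the block `00010` -/
def apA (h : ℕ) : ℕ → ℕ
  | 0 => h
  | i + 1 => 32 * apA h i + 2

theorem apA_shift (h i : ℕ) : apA (32 * h + 2) i = apA h (i + 1) := by
  induction i with
  | zero => rfl
  | succ i ih => simp only [apA] at ih ⊢; rw [ih]

/-- certificate for the blocks `00010` -/
def certA : Bool → Option (Fin 4) → ℕ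
  | false, none => 3
  | false, some s => ![3, 0, 1, 2] s
  | true, none => 3
  | true, some s => ![1, 3, 3, 3] s

/-- certificate for the blocks `001` -/
def certB : Bool → Option (Fin 4) → ℕ
  | false, none => 2
  | false, some s => ![0, 2, 2, 2] s
  | true, none => 2
  | true, some s => ![2, 0, 2, 0] s

theorem certA_le : ∀ y s, certA y s ≤ 3 := by decide

theorem certB_le : ∀ y s, certB y s ≤ 2 := by decide

theorem certA_step : ∀ (y0 : Bool) (s0 : Option (Fin 4)) (a1 a2 a3 a4 a5 : Bool),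
    certA (xor a5 false) (nxt a5 (nxt a4 (nxt a3 (nxt a2 (nxt a1 s0))))) + 3 ≤
    certA y0 s0 + cst wPlus a1 false y0 s0 + cst wPlus a2 false (xor a1 false) (nxt a1 s0) +
      cst wPlus a3 false (xor a2 false) (nxt a2 (nxt a1 s0)) +
      cst wPlus a4 true (xor a3 false) (nxt a3 (nxt a2 (nxt a1 s0))) +
      cst wPlus a5 false (xor a4 true) (nxt a4 (nxt a3 (nxt a2 (nxt a1 s0)))) := by
  decide

theorem certB_step : ∀ (y0 : Bool) (s0 : Option (Fin 4)) (a1 a2 a3 : Bool),
    certB (xor a3 true) (nxt a3 (nxt a2 (nxt a1 s0))) + 2 ≤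
    certB y0 s0 + cst wPar a1 false y0 s0 + cst wPar a2 false (xor a1 false) (nxt a1 s0) +
      cst wPar a3 true (xor a2 false) (nxt a2 (nxt a1 s0)) := by
  decide

theorem reach_apA (i : ℕ) : ∀ y s c, Reach wPlus (apA 0 i) y s c → 3 * i + certA y s ≤ c + 3 := by
  induction i with
  | zero => intro y s c _; have := certA_le y s; omega
  | succ i ih =>
    intro y s c h
    have h5 : apA 0 (i + 1) = 2 * (2 * (2 * (2 * (2 * apA 0 i + false.toNat) + false.toNat) +
        false.toNat) + true.toNat) + false.toNat := by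
      simp only [apA, Bool.toNat_false, Bool.toNat_true]; ring
    rw [h5] at h
    obtain ⟨y4, s4, c4, a5, k1, rfl, rfl, rfl⟩ := h.inv
    obtain ⟨y3, s3, c3, a4, k2, rfl, rfl, rfl⟩ := k1.inv
    obtain ⟨y2, s2, c2, a3, k3, rfl, rfl, rfl⟩ := k2.inv
    obtain ⟨y1, s1, c1, a2, k4, rfl, rfl, rfl⟩ := k3.inv
    obtain ⟨y0, s0, c0, a1, k5, rfl, rfl, rfl⟩ := k4.inv
    have h1 := ih _ _ _ k5
    have h2 := certA_step y0 s0 a1 a2 a3 a4 a5
    omega

theorem reach_app (n j : ℕ) : ∀ y s c, Reach wPar (app n j) y s c → 2 * j + certB y s ≤ c + 2 := by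
  induction j with
  | zero => intro y s c _; have := certB_le y s; omega
  | succ j ih =>
    intro y s c h
    have h5 : app n (j + 1) = 2 * (2 * (2 * app n j + false.toNat) + false.toNat) + true.toNat := by
      simp only [app, Bool.toNat_false, Bool.toNat_true]; ring
    rw [h5] at h
    obtain ⟨y2, s2, c2, a3, k1, rfl, rfl, rfl⟩ := h.inv
    obtain ⟨y1, s1, c1, a2, k2, rfl, rfl, rfl⟩ := k1.inv
    obtain ⟨y0, s0, c0, a1, k3, rfl, rfl, rfl⟩ := k2.inv
    have h1 := ih _ _ _ k3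
    have h2 := certB_step y0 s0 a1 a2 a3
    omega

theorem PPL_apA_ge (i : ℕ) : 3 * i ≤ 2 * PPL ruler (apA 0 i) + 3 := by
  obtain ⟨y, s, c, hr, hc⟩ := reach_of_path good_plus (path_PPL ruler (apA 0 i))
  have := reach_apA i y s c hr
  omega

theorem PPL_app_ge (n j : ℕ) : j ≤ PPL ruler (app n j) + 1 := by
  obtain ⟨y, s, c, hr, hc⟩ := reach_of_path good_par (path_PPL ruler (app n j))
  have := reach_app n j y s c hr
  omega

theorem pal_lifts {x y : ℕ} (h : Pal ruler x y) (s : ℕ) :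
    ∀ S, S < 2 ^ s → Pal ruler (2 ^ s * x + S) (2 ^ s * y + (2 ^ s - 1 - S)) := by
  induction s with
  | zero =>
    intro S hS
    have hS0 : S = 0 := by simpa using hS
    subst hS0
    simpa using h
  | succ s ih =>
    intro S hS
    rw [pow_succ] at hS
    have h1 := pal_lift (ih (S / 2) (by omega)) (S % 2) (by omega)
    have e1 : 2 * (2 ^ s * x + S / 2) + S % 2 = 2 ^ (s + 1) * x + S := by
      rw [pow_succ]
      have : 2 * (2 ^ s * x) = 2 ^ s * 2 * x := by ring
      omega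
    have e2 : 2 * (2 ^ s * y + (2 ^ s - 1 - S / 2)) + 1 - S % 2 =
        2 ^ (s + 1) * y + (2 ^ (s + 1) - 1 - S) := by
      rw [pow_succ]
      have : 2 * (2 ^ s * y) = 2 ^ s * 2 * y := by ring
      omega
    rwa [e1, e2] at h1

theorem pal_two (i h : ℕ) :
    Pal ruler (2 ^ (8 * i + 4) * (16 * h + 1) - 1) (2 ^ (8 * i + 4) * (16 * h + 1) - 1 + 2) := by
  have hpos : 0 < 2 ^ (8 * i + 4) * (16 * h + 1) := by positivity
  have hr1 : ruler (2 ^ (8 * i + 4) * (16 * h + 1)) = 0 := by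
    have hval : padicValNat 2 (2 ^ (8 * i + 4) * (16 * h + 1)) = 8 * i + 4 := by
      rw [padicValNat.mul (by positivity) (by omega), padicValNat.prime_pow,
        padicValNat.eq_zero_of_not_dvd (by omega)]
    apply Fin.ext
    simp [ruler, hval, Fin.ofNat]
    omega
  have hr2 : ruler (2 ^ (8 * i + 4) * (16 * h + 1) + 1) = 0 := by
    rw [show 2 ^ (8 * i + 4) * (16 * h + 1) + 1 = 2 * (2 ^ (8 * i + 3) * (16 * h + 1)) + 1 by ring]
    exact ruler_odd _
  generalize 2 ^ (8 * i + 4) * (16 * h + 1) = T at *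
  intro t h1 h2
  rcases (show t = T ∨ t = T + 1 by omega) with rfl | rfl
  · rw [show t - 1 + (t - 1 + 2) + 1 - t = t + 1 by omega, hr1, hr2]
  · rw [show T - 1 + (T - 1 + 2) + 1 - (T + 1) = T by omega, hr1, hr2]

theorem two_steps (i h s S k : ℕ) (hS : S < 2 ^ s)
    (hp : Path ruler k (h * 2 ^ (8 * (i + 1) + s) + S)) :
    Path ruler (k + 2) ((32 * h + 2) * 2 ^ (8 * i + (s + 3)) + (2 ^ s + S)) := by
  have hpow : 2 ^ s * 2 ^ (8 * i + 3) = 2 ^ (8 * i + (s + 3)) := by rw [← pow_add]; congr 1; omega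
  have hle : 2 ^ s ≤ 2 ^ (8 * i + (s + 3)) := Nat.pow_le_pow_right (by norm_num) (by omega)
  have p1 := pal_lifts (pal_single (32 * h)) (8 * i + (s + 3)) S (by omega)
  have p2 := pal_lifts (pal_two i h) s (2 ^ s - 1 - S) (by omega)
  have e0 : h * 2 ^ (8 * (i + 1) + s) + S = 2 ^ (8 * i + (s + 3)) * (32 * h) + S := by
    have : h * 2 ^ (8 * (i + 1) + s) = 2 ^ (8 * i + (s + 3)) * (32 * h) := by
      rw [show 8 * (i + 1) + s = 8 * i + (s + 3) + 5 by omega, pow_add]; ring
    omega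
  have e1 : 2 ^ (8 * i + (s + 3)) * (32 * h + 1) + (2 ^ (8 * i + (s + 3)) - 1 - S) =
      2 ^ s * (2 ^ (8 * i + 4) * (16 * h + 1) - 1) + (2 ^ s - 1 - S) := by
    have q1 : 2 ^ (8 * i + (s + 3)) * (32 * h + 1) + 2 ^ (8 * i + (s + 3)) =
        2 ^ s * (2 ^ (8 * i + 4) * (16 * h + 1)) := by
      rw [← hpow]; ring
    have q2 : 2 ^ s * (2 ^ (8 * i + 4) * (16 * h + 1) - 1) + 2 ^ s =
        2 ^ s * (2 ^ (8 * i + 4) * (16 * h + 1)) := by
      have hpos : 0 < 2 ^ (8 * i + 4) * (16 * h + 1) := by positivity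
      obtain ⟨T, hT⟩ := Nat.exists_eq_add_of_lt hpos
      rw [hT]; simp only [Nat.zero_add, Nat.add_sub_cancel]; ring
    omega
  have e2 : 2 ^ s * (2 ^ (8 * i + 4) * (16 * h + 1) - 1 + 2) + (2 ^ s - 1 - (2 ^ s - 1 - S)) =
      (32 * h + 2) * 2 ^ (8 * i + (s + 3)) + (2 ^ s + S) := by
    have hpos : 0 < 2 ^ (8 * i + 4) * (16 * h + 1) := by positivity
    have q1 : 2 ^ s * (2 ^ (8 * i + 4) * (16 * h + 1) - 1 + 2) =
        2 ^ s * (2 ^ (8 * i + 4) * (16 * h + 1)) + 2 ^ s := by
      obtain ⟨T, hT⟩ := Nat.exists_eq_add_of_lt hpos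
      rw [hT]; simp only [Nat.zero_add, Nat.add_sub_cancel]; ring
    have q2 : 2 ^ s * (2 ^ (8 * i + 4) * (16 * h + 1)) = (32 * h + 2) * 2 ^ (8 * i + (s + 3)) := by
      rw [← hpow]; ring
    omega
  rw [e0] at hp
  have s1 := Path.step hp (by
    have q : 2 ^ (8 * i + (s + 3)) * (32 * h + 1) =
      2 ^ (8 * i + (s + 3)) * (32 * h) + 2 ^ (8 * i + (s + 3)) := by ring
    omega) p1
  rw [e1] at s1
  have s2 := Path.step s1 (by
    generalize 2 ^ (8 * i + 4) * (16 * h + 1) - 1 = e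
    have q : 2 ^ s * (e + 2) = 2 ^ s * e + 2 * 2 ^ s := by ring
    have : 0 < 2 ^ s := by positivity
    omega) p2
  rw [e2] at s2
  exact s2

theorem path_nested (i : ℕ) : ∀ (h s S k : ℕ), S < 2 ^ s →
    Path ruler k (h * 2 ^ (8 * i + s) + S) →
    Path ruler (k + 2 * i) (app (apA h i) i * 2 ^ s + S) := by
  induction i with
  | zero =>
    intro h s S k _ hp
    simpa [app, apA] using hp
  | succ i ih =>
    intro h s S k hS hp
    have h2 := two_steps i h s S k hS hp
    have h3 := ih (32 * h + 2) (s + 3) (2 ^ s + S) (k + 2) (by rw [pow_add]; omega) h2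
    rw [apA_shift] at h3
    have e : app (apA h (i + 1)) i * 2 ^ (s + 3) + (2 ^ s + S) =
        app (apA h (i + 1)) (i + 1) * 2 ^ s + S := by
      simp only [app]
      rw [pow_add]; ring
    rw [e, show k + 2 + 2 * i = k + 2 * (i + 1) by ring] at h3
    exact h3

theorem PPL_nested_le (i : ℕ) : PPL ruler (app (apA 0 i) i) ≤ 2 * i := by
  have h := path_nested i 0 0 0 0 (by norm_num) (by simpa using Path.zero)
  have := PPL_le ruler h
  simpa using this

theorem not_regular : ¬ IsRegularSeq 2 (fun n => (PPL ruler n : ℤ)) := by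
  intro hreg
  obtain ⟨K, hK⟩ := uniform_bound (fun n => (PPL ruler n : ℤ)) hreg 3 (by
    intro n
    have := PPL_eight_bounds n
    constructor <;> omega) (fun j => (j : ℤ)) (by
    intro n
    refine ⟨1, fun j => ?_⟩
    have := PPL_app_ge n j
    omega)
  set i : ℕ := 2 * K.natAbs + 4 with hi
  have h1 := hK (apA 0 i) i
  have h2 := PPL_nested_le i
  have h3 := PPL_apA_ge i
  omega

theorem automatic : IsAutomaticWord 2 ruler := by
  refine ⟨Fin 4, inferInstance, 0, fun q a => if a = 0 then q + 1 else 0, id, ?_⟩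
  intro n
  induction n using Nat.strong_induction_on with
  | _ n ih =>
    intro hn
    rw [Nat.digits_def' (by norm_num) (by omega)]
    simp only [List.reverse_cons, List.foldl_append, List.foldl_cons, List.foldl_nil, id_eq]
    rcases Nat.even_or_odd' n with ⟨m, rfl | rfl⟩
    · have hm : 2 * m / 2 = m := by omega
      rw [hm, show 2 * m % 2 = 0 by omega, if_pos rfl, ruler_even m (by omega)]
      have := ih m (by omega) (by omega)
      simp only [id_eq] at this
      rw [← this]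
    · rw [show (2 * m + 1) % 2 = 1 by omega, if_neg (by norm_num), ruler_odd]

end Pool.Agent.Lib.MP_f91ac8_co
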