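import Mathlib

set_option autoImplicit false

namespace Pool.Agent.Lib.MP_f91ac8_co

/-- The prefix of length `n` of the infinite word `u 1, u 2, u 3, ...`. -/
def pref {α : Type} (u : ℕ → α) (n : ℕ) : List α := (List.range n).map fun i => u (i + 1)

/-- `w` is the concatenation of exactly `k` nonempty palindromes. -/
def PalFactors {α : Type} (w : List α) (k : ℕ) : Prop :=
  ∃ L : List (List α), L.length = k ∧ L.flatten = w ∧ ∀ p ∈ L, p ≠ [] ∧ p.reverse = p

/-- The prefix palindromic length: the least `k` such that the prefix of length `n` is a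
concatenation of `k` nonempty palindromes. -/
noncomputable def PPL {α : Type} (u : ℕ → α) (n : ℕ) : ℕ := sInf {k | PalFactors (pref u n) k}

/-- The `d`-kernel of a sequence. -/
def dKernel (d : ℕ) (f : ℕ → ℤ) : Set (ℕ → ℤ) :=
  {g | ∃ e r : ℕ, r < d ^ e ∧ g = fun n => f (d ^ e * n + r)}

/-- `d`-regular sequences of integers (Allouche and Shallit): the `ℤ`-module spanned by the
`d`-kernel is finitely generated. -/
def IsRegularSeq (d : ℕ) (f : ℕ → ℤ) : Prop := (Submodule.span ℤ (dKernel d f)).FG

/-- `d`-automatic words `u 1, u 2, u 3, ...`: for `n ≥ 1` the letter `u n` is the output of a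
deterministic finite automaton with output that reads the base-`d` expansion of `n`, most
significant digit first. -/
def IsAutomaticWord (d : ℕ) {α : Type} (u : ℕ → α) : Prop :=
  ∃ (Q : Type) (_ : Fintype Q) (q₀ : Q) (δ : Q → ℕ → Q) (out : Q → α),
    ∀ n, 1 ≤ n → u n = out ((Nat.digits d n).reverse.foldl δ q₀)

end Pool.Agent.Lib.MP_f91ac8_co
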