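import Pool.Agent.Lib.MP_f91ac8_co.FQ.L123h86
import Pool.Agent.Lib.MP_f91ac8_co.FQ.L4helper16
import Pool.Agent.Lib.MP_f91ac8_co.FQ.L56_46
import Pool.Agent.Lib.MP_f91ac8_co.FQ.P12_9
import Pool.Agent.Lib.MP_f91ac8_co.FQ.R1_46
import Pool.Agent.Lib.MP_f91ac8_co.FQ.U12_63
import Pool.Agent.Lib.MP_f91ac8_co.FQ.U34h73
import Pool.Agent.Lib.MP_f91ac8_co.FQ.W12_26
import Pool.Agent.Lib.MP_f91ac8_co.FQ.W3_50
import Pool.Agent.Lib.MP_f91ac8_co.FQ.Z1_41
import Pool.Agent.Lib.MP_f91ac8_co.FQ.G3x45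
import Pool.Agent.Lib.MP_f91ac8_co.FQ.Z2x45
import Pool.Agent.Lib.MP_f91ac8_co.FQ.Gen45

set_option autoImplicit false

universe u

namespace Pool.Agent.Lib.MP_f91ac8_co.FQ

theorem fibFloor : StFloor := stFloor_50 stRec_26 stX_86 (stBA_16 stX_86)

theorem fibBA : StBA := stBA_16 stX_86

theorem fibL : StL := stL_63 (stPalB_9 fibFloor) fibBA stX_86

theorem fibC : StC := stC_63 (stPalB_9 fibFloor) fibBA stX_86

theorem fibUp : StUp := stUp_73 stX_86 fibL fibC

theorem fibBd : StBd := stBd_73 stX_86 fibL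

theorem fibLow : StLow :=
  G45.stLow_45 (stPalF_9 fibFloor) stNorm_86 stX_86 stFth_86 (stLen_46 stX_86)

theorem fibFinal : StFinal := Z45.stFinal_45 fibUp fibBd fibLow stReg_46

theorem fibGen (κ : Type u) [Field κ] [CharZero κ] :
    ¬ IsFibRegularOver κ (fun n => (PPL fw n : ℤ)) := stFinal_gen fibUp fibBd fibLow κ

/-- the morphism maps prefixes of the Fibonacci word to prefixes of it -/
theorem mor_pref (n : ℕ) : pref fw (mor (pref fw n)).length = mor (pref fw n) := by
  have hle : n ≤ F n := by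
    have : ∀ j, j ≤ F j ∧ j + 1 ≤ F (j + 1) := by
      intro j
      induction j with
      | zero => exact ⟨by decide, by decide⟩
      | succ j ih =>
        refine ⟨ih.2, ?_⟩
        have h : F (j + 1 + 1) = F j + F (j + 1) := Nat.fib_add_two
        have h1 : 1 ≤ F j := Nat.fib_pos.2 (by omega)
        omega
    exact (this n).1
  have hsplit : ∀ a b : ℕ, a ≤ b → pref fw b = pref fw a ++ fac fw a b := fun a b h =>
    (pref_append_fac fw h).symm
  have h1 : mor (pref fw (F n)) = pref fw (F (n + 1)) := by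
    rw [(stPref_26 n).2, (stPref_26 (n + 1)).2]; rfl
  rw [hsplit n (F n) hle] at h1
  have h2 : mor (pref fw n ++ fac fw n (F n)) = mor (pref fw n) ++ mor (fac fw n (F n)) := by
    simp [mor, List.flatMap_append]
  rw [h2] at h1
  have h3 : (mor (pref fw n)).length ≤ F (n + 1) := by
    have := congrArg List.length h1
    rw [List.length_append, pref_length] at this
    omega
  rw [hsplit _ _ h3] at h1
  exact (List.append_inj h1 (by rw [pref_length])).1.symm

end Pool.Agent.Lib.MP_f91ac8_co.FQ
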