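import Pool.Agent.Lib.MP_f91ac8_co.Defs

set_option autoImplicit false

namespace Pool.Agent.Lib.MP_f91ac8_co

variable {α : Type}

/-- the factor `u (x+1) ... u y` is a palindrome -/
def Pal (u : ℕ → α) (x y : ℕ) : Prop := ∀ t, x < t → t ≤ y → u t = u (x + y + 1 - t)

/-- paths from `0` to `n` with `k` palindromic steps -/
inductive Path (u : ℕ → α) : ℕ → ℕ → Prop
  | zero : Path u 0 0
  | step {k x y : ℕ} : Path u k x → x < y → Pal u x y → Path u (k + 1) y

/-- the factor between boundaries `x` and `y` -/
def fac (u : ℕ → α) (x y : ℕ) : List α := (List.range (y - x)).map fun i => u (x + i + 1)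

theorem pref_append_fac (u : ℕ → α) {x y : ℕ} (h : x ≤ y) : pref u x ++ fac u x y = pref u y := by
  obtain ⟨d, rfl⟩ := Nat.exists_eq_add_of_le h
  simp only [pref, fac, Nat.add_sub_cancel_left, List.range_add, List.map_append, List.map_map]
  rfl

theorem fac_reverse_iff (u : ℕ → α) {x y : ℕ} (h : x ≤ y) :
    (fac u x y).reverse = fac u x y ↔ Pal u x y := by
  constructor
  · intro hr t ht1 ht2
    have h1 : (fac u x y)[t - x - 1]? = some (u t) := by
      simp only [fac, List.getElem?_map]
      rw [List.getElem?_range (by omega)]
      simp only [Option.map_some, Option.some.injEq]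
      congr 1; omega
    rw [← hr, List.getElem?_reverse (by simp [fac]; omega)] at h1
    simp only [fac, List.getElem?_map, List.length_map, List.length_range] at h1
    rw [List.getElem?_range (by omega)] at h1
    simp only [Option.map_some, Option.some.injEq] at h1
    rw [← h1]; congr 1; omega
  · intro hp
    apply List.ext_getElem?
    intro i
    by_cases hi : i < y - x
    · rw [List.getElem?_reverse (by simpa [fac] using hi)]
      simp only [fac, List.getElem?_map, List.length_map, List.length_range]
      rw [List.getElem?_range (by omega), List.getElem?_range (by omega)]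
      simp only [Option.map_some, Option.some.injEq]
      rw [hp (x + i + 1) (by omega) (by omega)]
      congr 1; omega
    · rw [List.getElem?_eq_none (by simp [fac]; omega), List.getElem?_eq_none (by simp [fac]; omega)]

theorem pref_length (u : ℕ → α) (n : ℕ) : (pref u n).length = n := by simp [pref]

theorem palFactors_of_path (u : ℕ → α) {k n : ℕ} (h : Path u k n) : PalFactors (pref u n) k := by
  induction h with
  | zero => exact ⟨[], rfl, by simp [pref], by simp⟩
  | @step k x y _ hxy hp ih =>
    obtain ⟨L, hL1, hL2, hL3⟩ := ih
    refine ⟨L ++ [fac u x y], by simp [hL1], ?_, ?_⟩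
    · simp [hL2, pref_append_fac u hxy.le]
    · intro p hp'
      rcases List.mem_append.1 hp' with hm | hm
      · exact hL3 p hm
      · simp only [List.mem_singleton] at hm
        subst hm
        refine ⟨?_, (fac_reverse_iff u hxy.le).2 hp⟩
        intro h0
        have := congrArg List.length h0
        simp [fac] at this
        omega

theorem path_of_palFactors (u : ℕ → α) (k : ℕ) : ∀ n, PalFactors (pref u n) k → Path u k n := by
  induction k with
  | zero =>
    rintro n ⟨L, hL1, hL2, _⟩
    have : L = [] := List.length_eq_zero_iff.1 hL1
    subst this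
    have hn : n = 0 := by
      have := congrArg List.length hL2
      simpa [pref] using this.symm
    subst hn
    exact Path.zero
  | succ k ih =>
    rintro n ⟨L, hL1, hL2, hL3⟩
    rcases List.eq_nil_or_concat L with rfl | ⟨L', p, rfl⟩
    · simp at hL1
    · simp only [List.concat_eq_append, List.length_append, List.length_cons, List.length_nil,
        List.flatten_append, List.flatten_cons, List.flatten_nil, List.append_nil] at hL1 hL2 hL3
      have hp := hL3 p (by simp)
      have hlen : L'.flatten.length + p.length = n := by
        have := congrArg List.length hL2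
        simpa [pref] using this
      have hppos : 0 < p.length := List.length_pos_iff.2 hp.1
      set x := L'.flatten.length with hx
      have hsplit := pref_append_fac u (show x ≤ n by omega)
      rw [← hL2] at hsplit
      have hinj := List.append_inj hsplit (by rw [pref_length])
      obtain ⟨h1, h2⟩ := hinj
      refine Path.step (x := x) (ih x ⟨L', by omega, h1.symm, fun q hq => hL3 q (by simp [hq])⟩) (by omega) ?_
      rw [← fac_reverse_iff u (by omega), h2]
      exact hp.2

theorem path_iff (u : ℕ → α) (k n : ℕ) : PalFactors (pref u n) k ↔ Path u k n :=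
  ⟨path_of_palFactors u k n, palFactors_of_path u⟩

theorem path_trivial (u : ℕ → α) (n : ℕ) : Path u n n := by
  induction n with
  | zero => exact Path.zero
  | succ n ih =>
    refine Path.step ih (Nat.lt_succ_self n) ?_
    intro t h1 h2
    congr 1; omega

theorem PPL_le (u : ℕ → α) {k n : ℕ} (h : Path u k n) : PPL u n ≤ k :=
  Nat.sInf_le ((path_iff u k n).2 h)

theorem path_PPL (u : ℕ → α) (n : ℕ) : Path u (PPL u n) n := by
  rw [← path_iff]
  exact Nat.sInf_mem (s := {k | PalFactors (pref u n) k}) ⟨n, (path_iff u n n).2 (path_trivial u n)⟩

end Pool.Agent.Lib.MP_f91ac8_co
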