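import Pool.Agent.Lib.MP_f91ac8_co.Ruler

set_option autoImplicit false

namespace Pool.Agent.Lib.MP_f91ac8_co

/-- weight of a new element after a gap -/
def wt (w : Fin 4 → ℕ) : Option (Fin 4) → ℕ
  | none => 0
  | some s => w (s + 1)

/-- new gap state -/
def nxt (a : Bool) : Option (Fin 4) → Option (Fin 4)
  | none => if a then some 0 else none
  | some s => if a then some 0 else some (s + 1)

/-- cost of one step -/
def cst (w : Fin 4 → ℕ) (a b y : Bool) (s : Option (Fin 4)) : ℕ :=
  (if xor a b = y then 0 else 2) + (if a then wt w s else 0)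

/-- distance between gap states -/
def dst (w : Fin 4 → ℕ) : Option (Fin 4) → Option (Fin 4) → ℕ
  | _, none => 0
  | none, some _ => 4
  | some s, some t => w (t - s)

/-- `Reach w n y s c`: for some finite set `X` of bit positions, reading the binary digits of `n`
from the top costs `c` and ends in state `(y, s)`. -/
inductive Reach (w : Fin 4 → ℕ) : ℕ → Bool → Option (Fin 4) → ℕ → Prop
  | init : Reach w 0 false none 0
  | step {n m : ℕ} {y : Bool} {s : Option (Fin 4)} {c : ℕ} (a b : Bool) :
      Reach w n y s c → m = 2 * n + b.toNat →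
      Reach w m (xor a b) (nxt a s) (c + cst w a b y s)

/-- the weights used -/
def wPlus : Fin 4 → ℕ := ![0, 3, 2, 1]
/-- the weights used -/
def wPar : Fin 4 → ℕ := ![0, 2, 0, 2]

theorem Reach.inv {w : Fin 4 → ℕ} {i : ℕ} {b y : Bool} {s : Option (Fin 4)} {c : ℕ}
    (h : Reach w (2 * i + b.toNat) y s c) :
    ∃ y0 s0 c0 a, Reach w i y0 s0 c0 ∧ y = xor a b ∧ s = nxt a s0 ∧ c = c0 + cst w a b y0 s0 := by
  generalize hm : 2 * i + b.toNat = m at h
  cases h with
  | init =>
    have hi : i = 0 := by omega
    have hb : b = false := by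
      cases b
      · rfl
      · simp at hm
    subst hi hb
    exact ⟨false, none, 0, false, Reach.init, rfl, rfl, rfl⟩
  | @step n _ y0 s0 c0 a b' h' heq =>
    have h1 : n = i := by
      have := Bool.toNat_le b
      have := Bool.toNat_le b'
      omega
    have h2 : b' = b := by
      cases b <;> cases b' <;> simp at hm heq ⊢ <;> omega
    subst h1 h2
    exact ⟨y0, s0, c0, a, h', rfl, rfl, rfl⟩

/-- append `m` ones -/
def ones (i : ℕ) : ℕ → ℕ
  | 0 => i
  | m + 1 => 2 * ones i m + 1

/-- append `m` zeros -/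
def zeros (i : ℕ) : ℕ → ℕ
  | 0 => i
  | m + 1 => 2 * zeros i m

theorem ones_eq (i m : ℕ) : ones i m + 1 = 2 ^ m * (i + 1) := by
  induction m with
  | zero => simp [ones]
  | succ m ih => rw [pow_succ]; simp only [ones]; nlinarith

theorem zeros_eq (i m : ℕ) : zeros i m = 2 ^ m * i := by
  induction m with
  | zero => simp [zeros]
  | succ m ih => rw [pow_succ]; simp only [zeros, ih]; ring

/-- shift of a gap state -/
def sh (k : Fin 4) : Option (Fin 4) → Option (Fin 4)
  | none => none
  | some s => some (s + k)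

/-- the finite conditions on the weights -/
structure Good (w : Fin 4 → ℕ) : Prop where
  base : ∀ (y0 : Bool) (s0 : Option (Fin 4)) (a1 a2 a3 : Bool),
    (if y0 = true then 0 else 2) + (if xor a3 true = false then 2 else 0) +
      dst w (nxt a3 (nxt a2 (nxt a1 s0))) (sh 3 s0) ≤
    cst w a1 true y0 s0 + cst w a2 true (xor a1 true) (nxt a1 s0) +
      cst w a3 true (xor a2 true) (nxt a2 (nxt a1 s0))
  stp : ∀ (y : Bool) (s t : Option (Fin 4)) (a : Bool),
    (if xor a true = false then 2 else 0) + dst w (nxt a s) (sh 1 t) ≤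
    (if y = false then 2 else 0) + dst w s t + cst w a true y s
  typec : ∀ (yh : Bool) (sh' : Option (Fin 4)) (aK a0 b y1 : Bool) (s1 : Option (Fin 4)),
    (if yh = false then 0 else 2) + wt w sh' + cst w (!a0) b false (some 3) +
      dst w (nxt a0 s1) (nxt (!a0) (some 3)) ≤
    cst w aK false yh sh' + (if aK = true then 0 else 2) + (if y1 = false then 2 else 0) +
      dst w s1 (sh 3 (nxt aK sh')) + cst w a0 b y1 s1 + 2
  diag : ∀ s, dst w s s = 0
  app : ∀ (a : Bool) (s t : Option (Fin 4)),
    (if a then wt w t else 0) + dst w (nxt a s) (nxt a t) ≤ (if a then wt w s else 0) + dst w s t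

theorem good_plus : Good wPlus where
  base := by decide
  stp := by decide
  typec := by decide
  diag := by decide
  app := by decide

theorem good_par : Good wPar where
  base := by decide
  stp := by decide
  typec := by decide
  diag := by decide
  app := by decide

theorem sh_sh (k l : Fin 4) (s : Option (Fin 4)) : sh k (sh l s) = sh (l + k) s := by
  cases s with
  | none => rfl
  | some s => simp [sh, add_assoc]

theorem region {w : Fin 4 → ℕ} (hw : Good w) (i : ℕ) (m : ℕ) :
    ∀ (y : Bool) (s : Option (Fin 4)) (c : ℕ), Reach w (ones i (m + 3)) y s c →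
    ∃ y0 s0 c0, Reach w i y0 s0 c0 ∧
      c0 + (if y0 = true then 0 else 2) + (if y = false then 2 else 0) +
        dst w s (sh (Fin.ofNat 4 (m + 3)) s0) ≤ c := by
  induction m with
  | zero =>
    intro y s c h
    have h3 : ones i (0 + 3) = 2 * (2 * (2 * i + true.toNat) + true.toNat) + true.toNat := rfl
    rw [h3] at h
    obtain ⟨y2, s2, c2, a3, k1, rfl, rfl, rfl⟩ := h.inv
    obtain ⟨y1, s1, c1, a2, k2, rfl, rfl, rfl⟩ := k1.inv
    obtain ⟨y0, s0, c0, a1, k3, rfl, rfl, rfl⟩ := k2.inv
    refine ⟨y0, s0, c0, k3, ?_⟩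
    have := hw.base y0 s0 a1 a2 a3
    have e : Fin.ofNat 4 (0 + 3) = (3 : Fin 4) := by decide
    rw [e]
    omega
  | succ m ih =>
    intro y s c h
    have h3 : ones i (m + 1 + 3) = 2 * ones i (m + 3) + true.toNat := rfl
    rw [h3] at h
    obtain ⟨y1, s1, c1, a, k1, rfl, rfl, rfl⟩ := h.inv
    obtain ⟨y0, s0, c0, h0, hle⟩ := ih _ _ _ k1
    refine ⟨y0, s0, c0, h0, ?_⟩
    have := hw.stp y1 s1 (sh (Fin.ofNat 4 (m + 3)) s0) a
    rw [sh_sh] at this
    have e : Fin.ofNat 4 (m + 3) + 1 = Fin.ofNat 4 (m + 1 + 3) := by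
      apply Fin.ext
      simp [Fin.val_add, Fin.ofNat]
    rw [e] at this
    omega

theorem reach_zeros {w : Fin 4 → ℕ} {i : ℕ} {s : Fin 4} {c : ℕ}
    (h : Reach w i false (some s) c) (m : ℕ) :
    Reach w (zeros i m) false (some (s + Fin.ofNat 4 m)) c := by
  induction m with
  | zero => simpa [zeros, Fin.ofNat] using h
  | succ m ih =>
    have := Reach.step (m := zeros i (m + 1)) false false ih (by simp [zeros])
    have e1 : nxt false (some (s + Fin.ofNat 4 m)) = some (s + Fin.ofNat 4 (m + 1)) := by
      simp only [nxt, Bool.false_eq_true, if_false, Option.some.injEq]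
      rw [add_assoc]
      congr 1
      apply Fin.ext
      simp [Fin.val_add, Fin.ofNat]
    rw [e1] at this
    simpa [cst] using this

theorem pot {w : Fin 4 → ℕ} (hw : Good w) : ∀ (y x : ℕ), x < y → Pal ruler x y →
    ∀ (p : Bool) (s : Option (Fin 4)) (c : ℕ), Reach w x p s c →
    ∃ s' c', Reach w y (!p) s' c' ∧ c' + dst w s s' ≤ c + 2 := by
  intro y
  induction y using Nat.strong_induction_on with
  | _ y ih =>
    intro x hxy hpal p s c h
    rcases pal_cases hxy hpal with ⟨i, j, ρ, hij, hρ, hp, hx, hy⟩ | ⟨i, hx, hy⟩ | ⟨hy, hz1, hz2⟩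
    · -- lifted palindrome
      obtain ⟨b, rfl⟩ : ∃ b : Bool, ρ = b.toNat := by
        rcases Nat.le_one_iff_eq_zero_or_eq_one.1 hρ with h0 | h0
        · exact ⟨false, h0⟩
        · exact ⟨true, h0⟩
      subst hx
      obtain ⟨y0, s0, c0, a, h0, rfl, rfl, rfl⟩ := h.inv
      obtain ⟨s0', c0', h0', hle⟩ := ih j (by have := Bool.toNat_le b; omega) i hij hp y0 s0 c0 h0
      have hst := Reach.step (m := y) a (!b) h0' (by
        rw [hy]; cases b <;> simp)
      refine ⟨_, _, by
        have e : (!(xor a b)) = xor a (!b) := by cases a <;> cases b <;> rfl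
        rw [e]; exact hst, ?_⟩
      have happ := hw.app a s0 s0'
      have e2 : cst w a (!b) (!y0) s0' = (if xor a b = y0 then 0 else 2) + (if a then wt w s0' else 0) := by
        unfold cst
        congr 1
        cases a <;> cases b <;> cases y0 <;> rfl
      rw [e2]
      unfold cst
      omega
    · -- single letter at an odd position
      subst hx hy
      have h' : Reach w (2 * i + false.toNat) p s c := h
      obtain ⟨y0, s0, c0, a, h0, rfl, rfl, rfl⟩ := h'.inv
      have hst := Reach.step (m := 2 * i + 1) a true h0 (by simp)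
      refine ⟨_, _, by
        have e : (!(xor a false)) = xor a true := by cases a <;> rfl
        rw [e]; exact hst, ?_⟩
      rw [hw.diag]
      unfold cst
      split_ifs <;> omega
    · -- two equal adjacent letters
      subst hy
      obtain ⟨m, h', b, hm3, hm4, hx', hy'⟩ : ∃ (m h' : ℕ) (b : Bool), 3 ≤ m ∧ m % 4 = 3 ∧
          x = 2 * ones (2 * h') m + b.toNat ∧ x + 2 = 2 * zeros (2 * h' + 1) m + b.toNat := by
        rcases Nat.even_or_odd' x with ⟨s, rfl | rfl⟩
        · -- x + 2 is the even letter
          rw [show 2 * s + 2 = 2 * (s + 1) by ring] at hz2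
          obtain ⟨m, h', hm3, hm4, hs⟩ := ruler_zero_even (s + 1) (by omega) hz2
          refine ⟨m, h', false, hm3, hm4, ?_, ?_⟩
          · have := ones_eq (2 * h') m
            have : ones (2 * h') m + 1 = s + 1 := by rw [this, hs]
            simp only [Bool.toNat_false]; omega
          · rw [zeros_eq, ← hs]; simp only [Bool.toNat_false]; ring
        · rw [show 2 * s + 1 + 1 = 2 * (s + 1) by ring] at hz1
          obtain ⟨m, h', hm3, hm4, hs⟩ := ruler_zero_even (s + 1) (by omega) hz1
          refine ⟨m, h', true, hm3, hm4, ?_, ?_⟩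
          · have := ones_eq (2 * h') m
            have : ones (2 * h') m + 1 = s + 1 := by rw [this, hs]
            simp only [Bool.toNat_true]; omega
          · rw [zeros_eq, ← hs]; simp only [Bool.toNat_true]; ring
      rw [hx'] at h
      obtain ⟨y1, s1, c1, a0, h1, rfl, rfl, rfl⟩ := h.inv
      obtain ⟨m', rfl⟩ := Nat.exists_eq_add_of_le hm3
      rw [show 3 + m' = m' + 3 by omega] at h1 hy' hm4
      obtain ⟨yK, sK, cK, hK, hle⟩ := region hw _ m' _ _ _ h1
      have hK' : Reach w (2 * h' + false.toNat) yK sK cK := hK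
      obtain ⟨yh, sh0, ch, aK, hh, rfl, rfl, rfl⟩ := hK'.inv
      have e3 : Fin.ofNat 4 (m' + 3) = (3 : Fin 4) := by
        apply Fin.ext; simpa [Fin.ofNat] using hm4
      rw [e3] at hle
      have g1 := Reach.step (m := 2 * h' + 1) true true hh (by simp)
      have e4 : nxt true sh0 = some 0 := by cases sh0 <;> rfl
      rw [e4] at g1
      have g2 := reach_zeros g1 (m' + 3)
      rw [e3] at g2
      have e5 : (0 : Fin 4) + 3 = 3 := by decide
      rw [e5] at g2
      have g3 := Reach.step (m := x + 2) (!a0) b g2 hy'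
      refine ⟨_, _, by
        have e : (!(xor a0 b)) = xor (!a0) b := by cases a0 <;> cases b <;> rfl
        rw [e]; exact g3, ?_⟩
      have ht := hw.typec yh sh0 aK a0 b y1 s1
      have e6 : cst w true true yh sh0 = (if yh = false then 0 else 2) + wt w sh0 := by
        unfold cst
        cases yh <;> simp
      rw [e6]
      have e7 : (xor aK false) = aK := by cases aK <;> rfl
      rw [e7] at hle
      omega

theorem reach_of_path {w : Fin 4 → ℕ} (hw : Good w) {k n : ℕ} (h : Path ruler k n) :
    ∃ y s c, Reach w n y s c ∧ c ≤ 2 * k := by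
  induction h with
  | zero => exact ⟨false, none, 0, Reach.init, le_rfl⟩
  | step _ hxy hp ih =>
    obtain ⟨p, s, c, hr, hc⟩ := ih
    obtain ⟨s', c', hr', hc'⟩ := pot hw _ _ hxy hp p s c hr
    exact ⟨_, s', c', hr', by omega⟩

end Pool.Agent.Lib.MP_f91ac8_co
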