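import Pool.Agent.Lib.MP_f91ac8_co.Path

set_option autoImplicit false

namespace Pool.Agent.Lib.MP_f91ac8_co

/-- The word `u_n = v_2(n) mod 4`. -/
def ruler (n : ℕ) : Fin 4 := Fin.ofNat 4 (padicValNat 2 n)

theorem ruler_odd (n : ℕ) : ruler (2 * n + 1) = 0 := by
  have : padicValNat 2 (2 * n + 1) = 0 := by
    apply padicValNat.eq_zero_of_not_dvd
    omega
  simp [ruler, this]

theorem ruler_even (n : ℕ) (hn : 1 ≤ n) : ruler (2 * n) = ruler n + 1 := by
  have h : padicValNat 2 (2 * n) = padicValNat 2 n + 1 := by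
    rw [padicValNat.mul (by norm_num) (by omega)]
    simp [add_comm]
  simp only [ruler, h]
  apply Fin.ext
  simp [Fin.val_add, Fin.ofNat]

theorem ruler_ne_of_odd (n : ℕ) (h : ruler n = 3) : n % 2 = 0 := by
  by_contra h2
  have h3 : n = 2 * (n / 2) + 1 := by omega
  rw [h3, ruler_odd] at h
  exact absurd h (by decide)

theorem pal_lift {x y : ℕ} (h : Pal ruler x y) (ρ : ℕ) (hρ : ρ ≤ 1) :
    Pal ruler (2 * x + ρ) (2 * y + 1 - ρ) := by
  intro t h1 h2
  rcases Nat.even_or_odd' t with ⟨s, rfl | rfl⟩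
  · have hs1 : x < s := by omega
    have hs2 : s ≤ y := by omega
    have e : 2 * x + ρ + (2 * y + 1 - ρ) + 1 - 2 * s = 2 * (x + y + 1 - s) := by omega
    rw [e, ruler_even s (by omega), ruler_even _ (by omega), h s hs1 hs2]
  · have e : 2 * x + ρ + (2 * y + 1 - ρ) + 1 - (2 * s + 1) = 2 * (x + y - s) + 1 := by omega
    rw [e, ruler_odd, ruler_odd]

theorem pal_single (x : ℕ) : Pal ruler x (x + 1) := by
  intro t h1 h2
  congr 1; omega

theorem pal_cases {x y : ℕ} (hxy : x < y) (h : Pal ruler x y) :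
    (∃ i j ρ, i < j ∧ ρ ≤ 1 ∧ Pal ruler i j ∧ x = 2 * i + ρ ∧ y = 2 * j + 1 - ρ) ∨
    (∃ i, x = 2 * i ∧ y = 2 * i + 1) ∨
    (y = x + 2 ∧ ruler (x + 1) = 0 ∧ ruler (x + 2) = 0) := by
  by_cases hpar : (x + y) % 2 = 1
  · by_cases hij : x / 2 = y / 2
    · right; left
      exact ⟨x / 2, by omega, by omega⟩
    · left
      refine ⟨x / 2, y / 2, x % 2, by omega, by omega, ?_, by omega, by omega⟩
      intro s hs1 hs2
      have h1 := h (2 * s) (by omega) (by omega)
      have e : x + y + 1 - 2 * s = 2 * (x / 2 + y / 2 + 1 - s) := by omega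
      rw [e, ruler_even s (by omega), ruler_even _ (by omega)] at h1
      exact add_right_cancel h1
  · right; right
    have hev : ∀ t, x < t → t ≤ y → t % 2 = 0 → ruler t = 0 := by
      intro t h1 h2 h3
      have h4 := h t h1 h2
      have e : x + y + 1 - t = 2 * ((x + y - t) / 2) + 1 := by omega
      rw [e, ruler_odd] at h4
      exact h4
    have hy : y = x + 2 := by
      by_contra hne
      have hge : x + 4 ≤ y := by omega
      obtain ⟨s, hs1, hs2⟩ : ∃ s, x < 2 * s ∧ 2 * s + 2 ≤ y := ⟨x / 2 + 1, by omega, by omega⟩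
      have h1 := hev (2 * s) hs1 (by omega) (by omega)
      have h2 := hev (2 * (s + 1)) (by omega) (by omega) (by omega)
      rw [ruler_even _ (by omega)] at h1 h2
      have k1 : ruler s = 3 := by
        have : ∀ a : Fin 4, a + 1 = 0 → a = 3 := by decide
        exact this _ h1
      have k2 : ruler (s + 1) = 3 := by
        have : ∀ a : Fin 4, a + 1 = 0 → a = 3 := by decide
        exact this _ h2
      have := ruler_ne_of_odd _ k1
      have := ruler_ne_of_odd _ k2
      omega
    subst hy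
    refine ⟨rfl, ?_, ?_⟩
    · have h4 := h (x + 1) (by omega) (by omega)
      have e : x + (x + 2) + 1 - (x + 1) = x + 2 := by omega
      rw [e] at h4
      rcases Nat.even_or_odd' x with ⟨s, rfl | rfl⟩
      · exact ruler_odd s
      · rw [h4]
        rw [show 2 * s + 1 + 2 = 2 * (s + 1) + 1 by omega]
        exact ruler_odd _
    · have h4 := h (x + 2) (by omega) (by omega)
      have e : x + (x + 2) + 1 - (x + 2) = x + 1 := by omega
      rw [e] at h4
      rcases Nat.even_or_odd' x with ⟨s, rfl | rfl⟩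
      · rw [h4]; exact ruler_odd s
      · rw [show 2 * s + 1 + 2 = 2 * (s + 1) + 1 by omega]
        exact ruler_odd _

/-- structure of even numbers `t > 0` with `ruler t = 0` -/
theorem ruler_zero_even (s : ℕ) (hs : 1 ≤ s) (h : ruler (2 * s) = 0) :
    ∃ m h', 3 ≤ m ∧ m % 4 = 3 ∧ s = 2 ^ m * (2 * h' + 1) := by
  have hne : s ≠ 0 := by omega
  obtain ⟨k, q, hq, hs'⟩ := Nat.exists_eq_two_pow_mul_odd hne
  obtain ⟨h', rfl⟩ := hq
  have hval : padicValNat 2 (2 * s) = k + 1 := by
    rw [hs', show 2 * (2 ^ k * (2 * h' + 1)) = 2 ^ (k + 1) * (2 * h' + 1) by ring,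
      padicValNat.mul (by positivity) (by omega), padicValNat.prime_pow,
      padicValNat.eq_zero_of_not_dvd (by omega)]
  have hk : (k + 1) % 4 = 0 := by
    have := congrArg Fin.val h
    simpa [ruler, hval, Fin.ofNat] using this
  exact ⟨k, h', by omega, by omega, hs'⟩

/-! ### Projection and lifting of paths -/

theorem path_half {k n : ℕ} (h : Path ruler k n) : ∃ k', k' ≤ k ∧ Path ruler k' (n / 2) := by
  induction h with
  | zero => exact ⟨0, le_rfl, Path.zero⟩
  | @step k x y _ hxy hp ih =>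
    obtain ⟨k', hk', hpath⟩ := ih
    rcases pal_cases hxy hp with ⟨i, j, ρ, hij, hρ, hpal, hx, hy⟩ | ⟨i, hx, hy⟩ | ⟨hy, _, _⟩
    · refine ⟨k' + 1, by omega, Path.step (x := x / 2) hpath ?_ ?_⟩
      · omega
      · rw [show x / 2 = i by omega, show y / 2 = j by omega]; exact hpal
    · exact ⟨k', by omega, by rw [show y / 2 = x / 2 by omega]; exact hpath⟩
    · refine ⟨k' + 1, by omega, Path.step (x := x / 2) hpath (by omega) ?_⟩
      rw [show y / 2 = x / 2 + 1 by omega]
      exact pal_single _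

theorem path_double {k n : ℕ} (h : Path ruler k n) :
    Path ruler k (2 * n + k % 2) ∧ Path ruler (k + 1) (2 * n + (k + 1) % 2) := by
  induction h with
  | zero =>
    refine ⟨Path.zero, ?_⟩
    exact Path.step Path.zero (by norm_num) (pal_single 0)
  | @step k x y _ hxy hp ih =>
    obtain ⟨h1, h2⟩ := ih
    constructor
    · refine Path.step h1 (by omega) ?_
      have := pal_lift hp (k % 2) (by omega)
      rwa [show 2 * y + 1 - k % 2 = 2 * y + (k + 1) % 2 by omega] at this
    · refine Path.step h2 (by omega) ?_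
      have := pal_lift hp ((k + 1) % 2) (by omega)
      rwa [show 2 * y + 1 - (k + 1) % 2 = 2 * y + (k + 1 + 1) % 2 by omega] at this

theorem PPL_half_le (n : ℕ) : PPL ruler (n / 2) ≤ PPL ruler n := by
  obtain ⟨k', hk', h⟩ := path_half (path_PPL ruler n)
  exact (PPL_le ruler h).trans hk'

theorem PPL_double_le (n b : ℕ) (hb : b ≤ 1) : PPL ruler (2 * n + b) ≤ PPL ruler n + 1 := by
  obtain ⟨h1, h2⟩ := path_double (path_PPL ruler n)
  by_cases hk : PPL ruler n % 2 = b
  · rw [hk] at h1
    exact (PPL_le ruler h1).trans (Nat.le_succ _)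
  · have : (PPL ruler n + 1) % 2 = b := by omega
    rw [this] at h2
    exact PPL_le ruler h2

theorem PPL_eight_bounds (n : ℕ) :
    PPL ruler n ≤ PPL ruler (8 * n + 1) ∧ PPL ruler (8 * n + 1) ≤ PPL ruler n + 3 := by
  constructor
  · have h1 := PPL_half_le (8 * n + 1)
    have h2 := PPL_half_le ((8 * n + 1) / 2)
    have h3 := PPL_half_le ((8 * n + 1) / 2 / 2)
    rw [show (8 * n + 1) / 2 / 2 / 2 = n by omega] at h3
    omega
  · have h1 := PPL_double_le n 0 (by omega)
    have h2 := PPL_double_le (2 * n + 0) 0 (by omega)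
    have h3 := PPL_double_le (2 * (2 * n + 0) + 0) 1 (by omega)
    rw [show 2 * (2 * (2 * n + 0) + 0) + 1 = 8 * n + 1 by omega] at h3
    omega

end Pool.Agent.Lib.MP_f91ac8_co
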